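import Mathlib
import Pool.Agent.Q30.CactusAct

/-!
Cactus groups contain free abelian subgroups of rank `⌊(n-1)/2⌋`.
-/

namespace Pool.Agent.Results.MP_fc7805_al.HalfRank

open Q30.Cactus

/-- `G` has a subgroup isomorphic to `ℤ^k`. -/
def HasFreeAbelian (G : Type) [Group G] (k : ℕ) : Prop :=
  ∃ H : Subgroup G, Nonempty (H ≃* Multiplicative (Fin k → ℤ))

/-- The cactus group `J_n` has a subgroup isomorphic to `ℤ^k` whenever `2k+1 ≤ n`. In particular
it is not true that, for all `n ≥ 2` and `k`, the group `J_n` has a subgroup isomorphic to `ℤ^k`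
if and only if `k ≤ ⌊n/3⌋` (for instance `J_5` contains `ℤ²`). -/
theorem result :
    (∀ n k : ℕ, 2 * k + 1 ≤ n → HasFreeAbelian (J n) k) ∧
      ¬ ∀ n : ℕ, 2 ≤ n → ∀ k : ℕ, (HasFreeAbelian (J n) k ↔ k ≤ n / 3) := by
  have h : ∀ n k : ℕ, 2 * k + 1 ≤ n → HasFreeAbelian (J n) k := by
    intro n k hk
    obtain ⟨f, hf⟩ := exists_injective n k hk
    exact ⟨f.range, ⟨(MonoidHom.ofInjective hf).symm⟩⟩
  refine ⟨h, fun hall => ?_⟩
  have h1 := (hall 5 (by norm_num) 2).mp (h 5 2 (by norm_num))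
  norm_num at h1

end Pool.Agent.Results.MP_fc7805_al.HalfRank
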